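import Mathlib

/-! Linear patterns in a sequence modulo 2 whose generating function is a quotient of lacunary series:
the relation, and the number of odd values. -/

set_option autoImplicit false

namespace Pool.Agent.Y927.PT

open PowerSeries Finset

/-- the polynomial of a pattern -/
noncomputable def cc (L : ℕ) (I : Finset ℕ) : (ZMod 2)⟦X⟧ := ∑ i ∈ I, X ^ (L - i)

theorem coeff_cc_mul (F : (ZMod 2)⟦X⟧) (L : ℕ) (I : Finset ℕ) (n : ℕ) :
    coeff n (cc L I * F) = ∑ i ∈ I, if L - i ≤ n then coeff (n - (L - i)) F else 0 := by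
  unfold cc
  rw [Finset.sum_mul, map_sum]
  exact Finset.sum_congr rfl fun i _ => coeff_X_pow_mul' _ _ _

/-- the pattern sum -/
def ps (f : ℕ → ZMod 2) (I : Finset ℕ) (n : ℕ) : ZMod 2 := ∑ i ∈ I, f (n + i)

theorem coeff_pattern (f : ℕ → ZMod 2) {L : ℕ} {I : Finset ℕ} (hI : ∀ i ∈ I, i ≤ L) (n : ℕ) :
    coeff (n + L) (cc L I * PowerSeries.mk f) = ps f I n := by
  rw [coeff_cc_mul]
  unfold ps
  refine Finset.sum_congr rfl fun i hi => ?_
  have := hI i hi
  rw [if_pos (by omega), coeff_mk]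
  congr 1
  omega

theorem coeff_pattern' (f : ℕ → ZMod 2) {L : ℕ} {I : Finset ℕ} (hI : ∀ i ∈ I, i ≤ L) {a : ℕ}
    (ha : L ≤ a) : coeff a (cc L I * PowerSeries.mk f) = ps f I (a - L) := by
  have := coeff_pattern f hI (a - L)
  rw [Nat.sub_add_cancel ha] at this
  exact this

theorem z2 (a : ZMod 2) (h : a ≠ 0) : a = 1 := by
  revert h; revert a; decide

/-- a quotient `F2 / F1` of two lacunary series -/
structure Sys (κ s : ℕ) (f : ℕ → ZMod 2) (F1 F2 : (ZMod 2)⟦X⟧) : Prop where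
  rel : PowerSeries.mk f * F1 = F2
  h1 : ∀ b, coeff b F1 ≠ 0 → ∃ v : ℕ, κ * b + s ^ 2 = s ^ 2 * v ^ 2
  h2 : ∀ y, coeff y F2 ≠ 0 → ∃ w : ℕ, κ * y + 1 = w ^ 2

theorem relation {κ s : ℕ} {f : ℕ → ZMod 2} {F1 F2 : (ZMod 2)⟦X⟧} (h : Sys κ s f F1 F2) (L : ℕ)
    (I : Finset ℕ) (n : ℕ) :
    ∑ p ∈ antidiagonal n, coeff p.1 (cc L I * PowerSeries.mk f) * coeff p.2 F1 =
      ∑ i ∈ I, if L - i ≤ n then coeff (n - (L - i)) F2 else 0 := by
  rw [← coeff_mul, mul_assoc, h.rel, coeff_cc_mul]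

/-- no element of the support of `F2` in `[n - L, n]` -/
theorem rhs_zero {F2 : (ZMod 2)⟦X⟧} {L n : ℕ} {I : Finset ℕ}
    (h : ∀ y, y ≤ n → n ≤ y + L → coeff y F2 = 0) :
    (∑ i ∈ I, if L - i ≤ n then coeff (n - (L - i)) F2 else 0) = 0 := by
  apply Finset.sum_eq_zero
  intro i _
  split_ifs with h1
  · apply h <;> omega
  · rfl

theorem rhs_one {F2 : (ZMod 2)⟦X⟧} {L n : ℕ} {I : Finset ℕ} (hI : ∀ i ∈ I, i ≤ L) (hL : L ∈ I)
    (h1 : coeff n F2 = 1) (h : ∀ y, y < n → n ≤ y + L → coeff y F2 = 0) :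
    (∑ i ∈ I, if L - i ≤ n then coeff (n - (L - i)) F2 else 0) = 1 := by
  rw [Finset.sum_eq_single L]
  · rw [Nat.sub_self, if_pos (Nat.zero_le _), Nat.sub_zero, h1]
  · intro i hi hne
    have := hI i hi
    split_ifs with h2
    · apply h <;> omega
    · rfl
  · intro h2
    exact absurd hL h2

/-- few `u` for each value of `u ^ 2 - s ^ 2 v ^ 2` -/
theorem fiber {N s : ℕ} (hN : 0 < N) (U : Finset ℕ)
    (hU : ∀ u ∈ U, ∃ v : ℕ, u ^ 2 = N + s ^ 2 * v ^ 2) : U.card ≤ N.divisors.card := by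
  classical
  choose! v hv using hU
  have key : ∀ u ∈ U, s * v u < u ∧ (u - s * v u) * (u + s * v u) = N := by
    intro u hu
    have h1 := hv u hu
    have h2 : (s * v u) ^ 2 < u ^ 2 := by rw [h1, mul_pow]; omega
    have h3 : s * v u < u := lt_of_pow_lt_pow_left₀ 2 (Nat.zero_le _) h2
    refine ⟨h3, ?_⟩
    have h4 : u ^ 2 - (s * v u) ^ 2 = N := by rw [h1, mul_pow]; omega
    rw [← h4, Nat.sq_sub_sq, mul_comm]
  apply Finset.card_le_card_of_injOn (fun u => u + s * v u)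
  · intro u hu
    have h1 := key u hu
    rw [Finset.mem_coe, Nat.mem_divisors]
    exact ⟨⟨u - s * v u, by rw [mul_comm]; exact h1.2.symm⟩, hN.ne'⟩
  · intro u hu u' hu' he
    have h1 := key u hu
    have h2 := key u' hu'
    simp only at he
    rw [he] at h1
    have h3 : 0 < u' + s * v u' := by omega
    have h4 : u - s * v u = u' - s * v u' := by
      apply Nat.eq_of_mul_eq_mul_right h3
      rw [h1.2, h2.2]
    omega

theorem sq_step {w u : ℕ} (h : w < u) : w ^ 2 + u ≤ u ^ 2 := by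
  obtain ⟨d, rfl⟩ : ∃ d, u = w + 1 + d := ⟨u - w - 1, by omega⟩
  nlinarith [Nat.zero_le (w * d), Nat.zero_le (d * d)]

/-- The counting argument for the odd values. -/
theorem odd_count {κ s L X D : ℕ} {f : ℕ → ZMod 2} {I : Finset ℕ} (hI : ∀ i ∈ I, i ≤ L)
    (hD : ∀ m, s ^ 2 < κ * m + 1 → m ≤ X → (κ * m + 1 - s ^ 2).divisors.card ≤ D) (hs : 1 ≤ s)
    (U : Finset ℕ) (hκ : 0 < κ)
    (hU : ∀ u ∈ U, κ * L < u ∧ ∃ a v : ℕ, a ≤ X ∧ coeff a (cc L I * PowerSeries.mk f) ≠ 0 ∧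
      s ^ 2 < κ * a + 1 ∧ κ * a + 1 + s ^ 2 * v ^ 2 = u ^ 2 + s ^ 2) :
    U.card ≤ D * ((range (X + 1)).filter (fun n => ps f I n ≠ 0)).card := by
  classical
  choose! hu a v ha hB hpos hrel using hU
  have hLa : ∀ u ∈ U, L < a u := by
    intro u hu'
    have h1 := hrel u hu'
    have h2 := hpos u hu'
    have h3 := hu u hu'
    have h4 : (s * v u) ^ 2 < u ^ 2 := by rw [mul_pow]; omega
    have h5 : s * v u < u := lt_of_pow_lt_pow_left₀ 2 (Nat.zero_le _) h4
    have h6 : (s * v u) ^ 2 + u ≤ u ^ 2 := sq_step h5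
    rw [mul_pow] at h6
    have hs2 : 1 ≤ s ^ 2 := Nat.one_le_pow _ _ hs
    have h7 : κ * L < κ * a u := by omega
    exact lt_of_mul_lt_mul_left h7 (Nat.zero_le _)
  apply Finset.card_le_mul_card_image_of_maps_to (f := fun u => a u - L)
  · intro u hu'
    rw [mem_filter, mem_range]
    have h1 := ha u hu'
    refine ⟨by omega, ?_⟩
    rw [← coeff_pattern' f hI (hLa u hu').le]
    exact hB u hu'
  · intro n hn
    rw [mem_filter, mem_range] at hn
    by_cases hne : ((U.filter fun u => a u - L = n)).Nonempty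
    · obtain ⟨u0, hu0⟩ := hne
      rw [mem_filter] at hu0
      have e1 : a u0 = n + L := by have := hLa u0 hu0.1; omega
      have h1 := hpos u0 hu0.1
      have h2 := ha u0 hu0.1
      rw [e1] at h1 h2
      refine le_trans ?_ (hD (n + L) h1 h2)
      apply fiber (s := s) (by omega)
      intro u hu'
      rw [mem_filter] at hu'
      have e2 : a u = n + L := by have := hLa u hu'.1; omega
      refine ⟨v u, ?_⟩
      have h3 := hrel u hu'.1
      rw [e2] at h3
      omega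
    · rw [not_nonempty_iff_eq_empty] at hne
      rw [hne]
      simp

end Pool.Agent.Y927.PT
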