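import Pool.Agent.Y927.PT.A

/-! Linear patterns modulo 2: the number of odd values. -/

set_option autoImplicit false

namespace Pool.Agent.Y927.PT

open PowerSeries Finset

/-- a quadratic sequence `g` with `κ g + 1 = u ^ 2` -/
structure Fam (κ : ℕ) (u g : ℕ → ℕ) : Prop where
  k8 : 8 ≤ κ
  k24 : κ ≤ 24
  dvd : 2 ∣ κ
  sq : ∀ k, 1 ≤ k → κ * g k + 1 = u k ^ 2
  lo : ∀ k, 1 ≤ k → 2 * k + 1 ≤ u k
  mono : ∀ j k, 1 ≤ j → j < k → u j < u k
  gap : ∀ k, 1 ≤ k → 3 * κ * k + 8 ≤ 16 * u k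
  up : ∀ k, 1 ≤ k → g k ≤ 2 * k ^ 2

variable {κ s L X D : ℕ} {f : ℕ → ZMod 2} {F1 F2 : (ZMod 2)⟦X⟧} {u g : ℕ → ℕ} {I : Finset ℕ}

theorem Fam.card_image (hF : Fam κ u g) {k0 k1 : ℕ} (hk : 1 ≤ k0) :
    ((Icc k0 k1).image u).card = k1 + 1 - k0 := by
  rw [card_image_of_injOn, Nat.card_Icc]
  intro a ha b hb he
  rw [mem_coe, mem_Icc] at ha hb
  rcases lt_trichotomy a b with h | h | h
  · exact absurd he (hF.mono a b (by omega) h).ne
  · exact h
  · exact absurd he (hF.mono b a (by omega) h).ne'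

/-- the odd values, `s` even -/
theorem odd_gen (hS : Sys κ s f F1 F2) (hF : Fam κ u g) (hc2 : ∀ k, 1 ≤ k → coeff (g k) F2 = 1)
    (hs2 : 2 ∣ s) (hs : 1 ≤ s) (hI : ∀ i ∈ I, i ≤ L) (hL : L ∈ I)
    (hD : ∀ m, s ^ 2 < κ * m + 1 → m ≤ X → (κ * m + 1 - s ^ 2).divisors.card ≤ D)
    {k0 k1 : ℕ} (h0 : 1 ≤ k0) (h01 : κ * L ≤ 2 * k0) (h02 : s ^ 2 ≤ 2 * k0 + 1)
    (hk1 : 2 * k1 ^ 2 ≤ X) :
    k1 + 1 - k0 ≤ D * ((range (X + 1)).filter (fun n => ps f I n ≠ 0)).card := by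
  classical
  rw [← hF.card_image h0]
  apply odd_count hI hD hs _ (by have := hF.k8; omega)
  intro x hx
  rw [mem_image] at hx
  obtain ⟨k, hk, rfl⟩ := hx
  rw [mem_Icc] at hk
  have hk1' : 1 ≤ k := by omega
  have hlo := hF.lo k hk1'
  have hsq := hF.sq k hk1'
  have hκL : κ * L < u k := by omega
  refine ⟨hκL, ?_⟩
  have hgX : g k ≤ X := by
    have h1 := hF.up k hk1'
    have h2 : k ^ 2 ≤ k1 ^ 2 := Nat.pow_le_pow_left hk.2 2
    omega
  have hrhs := rhs_one (F2 := F2) (n := g k) hI hL (hc2 k hk1') (by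
    intro y hy1 hy2
    by_contra hne
    obtain ⟨w, hw⟩ := hS.h2 y hne
    have h8 := hF.k8
    have h1 : κ * y < κ * g k := Nat.mul_lt_mul_of_pos_left hy1 (by omega)
    have h2 : w ^ 2 < u k ^ 2 := by omega
    have h3 : w < u k := lt_of_pow_lt_pow_left₀ 2 (Nat.zero_le _) h2
    have h4 := sq_step h3
    have h5 : κ * g k ≤ κ * (y + L) := Nat.mul_le_mul_left _ hy2
    rw [mul_add] at h5
    omega)
  have hrel := relation hS L I (g k)
  rw [hrhs] at hrel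
  obtain ⟨p, hp, hpne⟩ := Finset.exists_ne_zero_of_sum_ne_zero (by rw [hrel]; exact one_ne_zero)
  rw [HasAntidiagonal.mem_antidiagonal] at hp
  have hB := left_ne_zero_of_mul hpne
  have hF1 := right_ne_zero_of_mul hpne
  obtain ⟨v, hv⟩ := hS.h1 _ hF1
  have hfull : κ * p.1 + 1 + s ^ 2 * v ^ 2 = u k ^ 2 + s ^ 2 := by
    rw [← hsq, ← hv, ← hp]; ring
  refine ⟨p.1, v, by omega, hB, ?_, hfull⟩
  by_contra hcon
  have h1 : u k ^ 2 ≤ (s * v) ^ 2 := by rw [mul_pow]; omega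
  have h2 : u k ≤ s * v := (Nat.pow_le_pow_iff_left two_ne_zero).1 h1
  rcases h2.lt_or_eq with h3 | h3
  · have h4 := sq_step h3
    rw [mul_pow] at h4
    omega
  · have h4 : κ * p.1 + 1 = s ^ 2 := by
      rw [h3, mul_pow] at hfull
      omega
    have h5 : 2 ∣ s ^ 2 := dvd_pow hs2 two_ne_zero
    have h6 : 2 ∣ κ * p.1 := hF.dvd.mul_right _
    omega

/-- the odd values, `s = 1` and `F2 = 1` -/
theorem odd_one (hS : Sys κ 1 f F1 1) (hF : Fam κ u g) (hc1 : ∀ k, 1 ≤ k → coeff (g k) F1 = 1)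
    (hf : f 0 = 1) (hI : ∀ i ∈ I, i ≤ L) (hL : L ∈ I)
    (hD : ∀ m, 1 ^ 2 < κ * m + 1 → m ≤ X → (κ * m + 1 - 1 ^ 2).divisors.card ≤ D)
    {k0 k1 : ℕ} (h0 : 1 ≤ k0) (h01 : κ * L ≤ 2 * k0) (hk1 : 2 * k1 ^ 2 ≤ X) :
    k1 + 1 - k0 ≤ D * ((range (X + 1)).filter (fun n => ps f I n ≠ 0)).card := by
  classical
  rw [← hF.card_image h0]
  apply odd_count hI hD le_rfl _ (by have := hF.k8; omega)
  intro x hx
  rw [mem_image] at hx
  obtain ⟨k, hk, rfl⟩ := hx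
  rw [mem_Icc] at hk
  have hk1' : 1 ≤ k := by omega
  have hlo := hF.lo k hk1'
  have hsq := hF.sq k hk1'
  have h8 := hF.k8
  have hκL : κ * L < u k := by omega
  refine ⟨hκL, ?_⟩
  have hgX : g k ≤ X := by
    have h1 := hF.up k hk1'
    have h2 : k ^ 2 ≤ k1 ^ 2 := Nat.pow_le_pow_left hk.2 2
    omega
  have hgL : L < g k := by
    by_contra hcon
    push Not at hcon
    have h1 : κ * g k ≤ κ * L := Nat.mul_le_mul_left _ hcon
    have h2 : u k ^ 2 ≤ u k := by omega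
    nlinarith
  have hrel := relation hS L I (g k)
  have hrhs : (∑ i ∈ I, if L - i ≤ g k then coeff (g k - (L - i)) (1 : (ZMod 2)⟦X⟧) else 0) = 0 := by
    apply Finset.sum_eq_zero
    intro i _
    split_ifs with h1
    · rw [coeff_one, if_neg (by omega)]
    · rfl
  rw [hrhs] at hrel
  have hmem : (0, g k) ∈ antidiagonal (g k) := by
    rw [HasAntidiagonal.mem_antidiagonal]; simp
  rw [← Finset.add_sum_erase _ _ hmem] at hrel
  have hB0 : coeff 0 (cc L I * PowerSeries.mk f) = 1 := by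
    rw [coeff_cc_mul, Finset.sum_eq_single L]
    · simp [hf]
    · intro i hi hne
      have := hI i hi
      rw [if_neg (by omega)]
    · intro h2
      exact absurd hL h2
  simp only at hrel
  rw [hB0, hc1 k hk1', one_mul] at hrel
  have hne : ∑ p ∈ (antidiagonal (g k)).erase (0, g k),
      coeff p.1 (cc L I * PowerSeries.mk f) * coeff p.2 F1 ≠ 0 := by
    intro h
    rw [h] at hrel
    simp at hrel
  obtain ⟨p, hp, hpne⟩ := Finset.exists_ne_zero_of_sum_ne_zero hne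
  rw [mem_erase, HasAntidiagonal.mem_antidiagonal] at hp
  obtain ⟨hp1, hp⟩ := hp
  have hB := left_ne_zero_of_mul hpne
  have hF1 := right_ne_zero_of_mul hpne
  obtain ⟨v, hv⟩ := hS.h1 _ hF1
  have ha : p.1 ≠ 0 := by
    intro h
    apply hp1
    ext
    · exact h
    · simp only; omega
  have hfull : κ * p.1 + 1 + 1 ^ 2 * v ^ 2 = u k ^ 2 + 1 ^ 2 := by
    rw [← hsq, ← hv, ← hp]; ring
  refine ⟨p.1, v, by omega, hB, ?_, hfull⟩
  have : 0 < κ * p.1 := Nat.mul_pos (by omega) (Nat.pos_of_ne_zero ha)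
  omega

end Pool.Agent.Y927.PT
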