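import Pool.Agent.Y927.PT.B

/-! Linear patterns modulo 2: the number of even values. -/

set_option autoImplicit false

namespace Pool.Agent.Y927.PT

open PowerSeries Finset

variable {κ s L X q : ℕ} {f : ℕ → ZMod 2} {F1 F2 : (ZMod 2)⟦X⟧} {u g : ℕ → ℕ} {I : Finset ℕ}

open Classical in
/-- the support up to `X` -/
noncomputable def sup (F : (ZMod 2)⟦X⟧) (X : ℕ) : Finset ℕ := (range (X + 1)).filter fun b => coeff b F ≠ 0

theorem mem_sup {F : (ZMod 2)⟦X⟧} {X b : ℕ} : b ∈ sup F X ↔ b ≤ X ∧ coeff b F ≠ 0 := by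
  classical
  unfold sup
  rw [mem_filter, mem_range, Nat.lt_succ_iff]

theorem card_sup1 (hS : Sys κ s f F1 F2) (hF : Fam κ u g) (hs : 1 ≤ s) (hq : 1 ≤ q)
    (hX2 : X < 516 * s ^ 2 * q ^ 2) : (sup F1 X).card ≤ 113 * q := by
  classical
  have hex : ∀ b ∈ sup F1 X, ∃ v : ℕ, κ * b + s ^ 2 = s ^ 2 * v ^ 2 := fun b hb =>
    hS.h1 b (mem_sup.1 hb).2
  choose! v hv using hex
  have h1 : (sup F1 X).card ≤ (range (112 * q + 1)).card := by
    apply Finset.card_le_card_of_injOn v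
    · intro b hb
      have h2 := hv b hb
      have h3 := (mem_sup.1 hb).1
      rw [mem_coe, mem_range]
      have h4 : κ * b ≤ 24 * X := Nat.mul_le_mul hF.k24 h3
      have hs2 : 1 ≤ s ^ 2 := Nat.one_le_pow _ _ hs
      have hq2 : 1 ≤ q ^ 2 := Nat.one_le_pow _ _ hq
      have h5 : s ^ 2 * v b ^ 2 ≤ s ^ 2 * (112 * q) ^ 2 := by
        have h6 : s ^ 2 * v b ^ 2 ≤ 24 * (516 * s ^ 2 * q ^ 2) + s ^ 2 := by omega
        nlinarith
      have h6 : v b ^ 2 ≤ (112 * q) ^ 2 := Nat.le_of_mul_le_mul_left h5 hs2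
      have h7 := (Nat.pow_le_pow_iff_left two_ne_zero).1 h6
      omega
    · intro b hb b' hb' he
      have h2 := hv b hb
      have h3 := hv b' hb'
      rw [he] at h2
      have h4 : κ * b = κ * b' := by omega
      exact Nat.eq_of_mul_eq_mul_left (by have := hF.k8; omega) h4
  rw [card_range] at h1
  omega

theorem card_sup2 (hS : Sys κ s f F1 F2) (hF : Fam κ u g) (hs : 1 ≤ s) (hq : 1 ≤ q)
    (hX2 : X < 516 * s ^ 2 * q ^ 2) : (sup F2 X).card ≤ 113 * (s * q) := by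
  classical
  have hex : ∀ b ∈ sup F2 X, ∃ w : ℕ, κ * b + 1 = w ^ 2 := fun b hb =>
    hS.h2 b (mem_sup.1 hb).2
  choose! v hv using hex
  have hsq : 1 ≤ s * q := Nat.mul_pos hs hq
  have h1 : (sup F2 X).card ≤ (range (112 * (s * q) + 1)).card := by
    apply Finset.card_le_card_of_injOn v
    · intro b hb
      have h2 := hv b hb
      have h3 := (mem_sup.1 hb).1
      rw [mem_coe, mem_range]
      have h4 : κ * b ≤ 24 * X := Nat.mul_le_mul hF.k24 h3
      have hsq2 : 1 ≤ (s * q) ^ 2 := Nat.one_le_pow _ _ hsq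
      have h6 : v b ^ 2 ≤ (112 * (s * q)) ^ 2 := by
        have h6 : v b ^ 2 ≤ 24 * (516 * s ^ 2 * q ^ 2) + 1 := by omega
        have h7 : 24 * (516 * s ^ 2 * q ^ 2) = 12384 * (s * q) ^ 2 := by ring
        have h8 : (112 * (s * q)) ^ 2 = 12544 * (s * q) ^ 2 := by ring
        omega
      have h7 := (Nat.pow_le_pow_iff_left two_ne_zero).1 h6
      omega
    · intro b hb b' hb' he
      have h2 := hv b hb
      have h3 := hv b' hb'
      rw [he] at h2
      have h4 : κ * b = κ * b' := by omega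
      exact Nat.eq_of_mul_eq_mul_left (by have := hF.k8; omega) h4
  rw [card_range] at h1
  omega

/-- The element `s ^ 2 g_k` of the support of `F1` is isolated. -/
theorem window (hS : Sys κ s f F1 F2) (hF : Fam κ u g) (hs : 1 ≤ s) (hL : 226 * (L + 1) ≤ s * q)
    {k b : ℕ} (hk : 4 * q < k) (hb : coeff b F1 ≠ 0) (hne : b ≠ s ^ 2 * g k) :
    b + s ^ 2 * q + L < s ^ 2 * g k ∨ s ^ 2 * g k + s ^ 2 * q + L < b := by
  have hk1 : 1 ≤ k := by omega
  obtain ⟨v, hv⟩ := hS.h1 b hb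
  have hsq := hF.sq k hk1
  have hgap := hF.gap k hk1
  have hk8 := hF.k8
  have hs2 : 1 ≤ s ^ 2 := Nat.one_le_pow _ _ hs
  have hsle : s * q ≤ s ^ 2 * q := by nlinarith
  have e1 : κ * (s ^ 2 * g k) + s ^ 2 = s ^ 2 * u k ^ 2 := by rw [← hsq]; ring
  have hd : ∀ d e : ℕ, κ * d ≥ s ^ 2 * e → 16 * u k ≤ 8 * e + 8 → s ^ 2 * q + L < d := by
    intro d e h1 h2
    have h3 : 3 * κ * k ≤ 8 * e := by omega
    have h4 : κ * (3 * s ^ 2 * k) ≤ κ * (8 * d) := by
      calc κ * (3 * s ^ 2 * k) = s ^ 2 * (3 * κ * k) := by ring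
        _ ≤ s ^ 2 * (8 * e) := Nat.mul_le_mul_left _ h3
        _ = 8 * (s ^ 2 * e) := by ring
        _ ≤ 8 * (κ * d) := Nat.mul_le_mul_left _ h1
        _ = κ * (8 * d) := by ring
    have h5 : 3 * s ^ 2 * k ≤ 8 * d := Nat.le_of_mul_le_mul_left h4 (by omega)
    have h6 : 3 * s ^ 2 * (4 * q + 1) ≤ 3 * s ^ 2 * k := Nat.mul_le_mul_left _ hk
    nlinarith
  rcases lt_trichotomy v (u k) with h | h | h
  · left
    have h1 : v ^ 2 + (2 * u k - 1) ≤ u k ^ 2 := by
      obtain ⟨d, hd'⟩ : ∃ d, u k = v + 1 + d := ⟨u k - v - 1, by omega⟩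
      rw [hd']
      have : 2 * (v + 1 + d) - 1 = 2 * v + 1 + 2 * d := by omega
      rw [this]
      nlinarith [Nat.zero_le (v * d), Nat.zero_le (d * d)]
    have h2 : s ^ 2 * v ^ 2 + s ^ 2 * (2 * u k - 1) ≤ s ^ 2 * u k ^ 2 := by
      rw [← mul_add]; exact Nat.mul_le_mul_left _ h1
    have h3 : κ * b + s ^ 2 * (2 * u k - 1) ≤ κ * (s ^ 2 * g k) := by omega
    have h4 : b ≤ s ^ 2 * g k := by
      by_contra hcon
      push Not at hcon
      have : κ * (s ^ 2 * g k) ≤ κ * b := Nat.mul_le_mul_left _ hcon.le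
      have h5 : κ * (s ^ 2 * g k) < κ * b := Nat.mul_lt_mul_of_pos_left hcon (by omega)
      omega
    have h5 := hd (s ^ 2 * g k - b) (2 * u k - 1) (by rw [Nat.mul_sub]; omega) (by omega)
    omega
  · exfalso
    apply hne
    rw [h] at hv
    have : κ * b = κ * (s ^ 2 * g k) := by omega
    exact Nat.eq_of_mul_eq_mul_left (by omega) this
  · right
    have h1 : u k ^ 2 + (2 * u k + 1) ≤ v ^ 2 := by
      obtain ⟨d, hd'⟩ : ∃ d, v = u k + 1 + d := ⟨v - u k - 1, by omega⟩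
      rw [hd']
      nlinarith [Nat.zero_le (u k * d), Nat.zero_le (d * d)]
    have h2 : s ^ 2 * u k ^ 2 + s ^ 2 * (2 * u k + 1) ≤ s ^ 2 * v ^ 2 := by
      rw [← mul_add]; exact Nat.mul_le_mul_left _ h1
    have h3 : κ * (s ^ 2 * g k) + s ^ 2 * (2 * u k + 1) ≤ κ * b := by omega
    have h4 : s ^ 2 * g k ≤ b := by
      by_contra hcon
      push Not at hcon
      have h5 : κ * b < κ * (s ^ 2 * g k) := Nat.mul_lt_mul_of_pos_left hcon (by omega)
      omega
    have h5 := hd (b - s ^ 2 * g k) (2 * u k + 1) (by rw [Nat.mul_sub]; omega) (by omega)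
    omega

/-- One of two neighbouring relations has an odd number of terms, so one of its terms vanishes. -/
theorem parity (hS : Sys κ s f F1 F2) (hF : Fam κ u g)
    (hc1 : ∀ k, 1 ≤ k → coeff (s ^ 2 * g k) F1 = 1)
    (hs : 1 ≤ s) (hL : 226 * (L + 1) ≤ s * q) {k r : ℕ} (hk : 4 * q < k)
    (hr2 : r < s ^ 2 * q) (hh : s ^ 2 * q ≤ s ^ 2 * g k)
    (hb1 : ∀ y, y ≤ s ^ 2 * g k - s ^ 2 * q + r → s ^ 2 * g k - s ^ 2 * q + r ≤ y + L → coeff y F2 = 0)
    (hb2 : ∀ y, y ≤ s ^ 2 * g k + r → s ^ 2 * g k + r ≤ y + L → coeff y F2 = 0) :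
    (∃ b, b ≤ s ^ 2 * g k - s ^ 2 * q + r ∧ coeff b F1 ≠ 0 ∧
      coeff (s ^ 2 * g k - s ^ 2 * q + r - b) (cc L I * PowerSeries.mk f) = 0) ∨
    (∃ b, b ≤ s ^ 2 * g k + r ∧ coeff b F1 ≠ 0 ∧
      coeff (s ^ 2 * g k + r - b) (cc L I * PowerSeries.mk f) = 0) := by
  by_contra hcon
  push Not at hcon
  obtain ⟨hc, hc'⟩ := hcon
  have hrel : ∀ n : ℕ, (∀ y, y ≤ n → n ≤ y + L → coeff y F2 = 0) →
      (∀ b, b ≤ n → coeff b F1 ≠ 0 → coeff (n - b) (cc L I * PowerSeries.mk f) ≠ 0) →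
      ∑ b ∈ range (n + 1), coeff b F1 = 0 := by
    intro n h1 h2
    have h3 := relation hS L I n
    rw [rhs_zero h1] at h3
    rw [Finset.Nat.sum_antidiagonal_eq_sum_range_succ (fun a b =>
      coeff a (cc L I * PowerSeries.mk f) * coeff b F1) n, ← Finset.sum_range_reflect] at h3
    rw [← h3]
    apply Finset.sum_congr rfl
    intro b hb
    rw [mem_range] at hb
    have e1 : n + 1 - 1 - b = n - b := by omega
    have e2 : n - (n - b) = b := by omega
    rw [e1, e2]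
    by_cases hz : coeff b F1 = 0
    · rw [hz, mul_zero]
    · rw [z2 _ (h2 b (by omega) hz), one_mul]
  have h1 := hrel _ hb1 hc
  have h2 := hrel _ hb2 hc'
  have h3 : s ^ 2 * g k + r + 1 = (s ^ 2 * g k - s ^ 2 * q + r + 1) + s ^ 2 * q := by omega
  rw [h3, Finset.sum_range_add, h1, zero_add] at h2
  have h4 : ∑ x ∈ range (s ^ 2 * q), coeff (s ^ 2 * g k - s ^ 2 * q + r + 1 + x) F1 = 1 := by
    rw [Finset.sum_eq_single (s ^ 2 * q - r - 1)]
    · have : s ^ 2 * g k - s ^ 2 * q + r + 1 + (s ^ 2 * q - r - 1) = s ^ 2 * g k := by omega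
      rw [this]
      exact hc1 k (by omega)
    · intro x hx hne
      rw [mem_range] at hx
      by_contra hz
      have := window hS hF hs hL hk hz (by omega)
      omega
    · intro h
      rw [mem_range] at h
      omega
  rw [h4] at h2
  exact one_ne_zero h2

theorem even_gen (hS : Sys κ s f F1 F2) (hF : Fam κ u g)
    (hc1 : ∀ k, 1 ≤ k → coeff (s ^ 2 * g k) F1 = 1)
    (hs : 1 ≤ s) (hI : ∀ i ∈ I, i ≤ L) (hq : 1 ≤ q) (hX1 : 129 * s ^ 2 * q ^ 2 ≤ X)
    (hX2 : X < 516 * s ^ 2 * q ^ 2) (hL : 226 * (L + 1) ≤ s * q) :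
    s ^ 2 * q ≤ 226 * ((range (X + 1)).filter (fun n => ps f I n = 0)).card := by
  classical
  set h : ℕ := s ^ 2 * q with hh
  have hs2 : 1 ≤ s ^ 2 := Nat.one_le_pow _ _ hs
  have hsle : s * q ≤ h := by rw [hh]; nlinarith
  set S := (range (X + 1)).filter (fun n => ps f I n = 0) with hSdef
  -- facts on `k`
  have hgk : ∀ k, 4 * q < k → h ≤ s ^ 2 * g k := by
    intro k hk
    rw [hh]
    apply Nat.mul_le_mul_left
    have h1 := hF.sq k (by omega)
    have h2 := hF.lo k (by omega)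
    have h3 : (2 * k + 1) ^ 2 ≤ u k ^ 2 := Nat.pow_le_pow_left h2 2
    have h4 : κ * g k ≤ 24 * g k := Nat.mul_le_mul_right _ hF.k24
    nlinarith
  have hgX : ∀ k, 4 * q < k → k ≤ 8 * q → s ^ 2 * g k + h ≤ X := by
    intro k hk1 hk2
    have h1 := hF.up k (by omega)
    have h2 : k ^ 2 ≤ (8 * q) ^ 2 := Nat.pow_le_pow_left hk2 2
    have h3 : s ^ 2 * g k ≤ s ^ 2 * (128 * q ^ 2) := Nat.mul_le_mul_left _ (by nlinarith)
    have h4 : h ≤ s ^ 2 * q ^ 2 := by rw [hh]; exact Nat.mul_le_mul_left _ (by nlinarith)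
    nlinarith
  have hiso : ∀ k k', 4 * q < k → 4 * q < k' → k ≠ k' →
      s ^ 2 * g k' + h + L < s ^ 2 * g k ∨ s ^ 2 * g k + h + L < s ^ 2 * g k' := by
    intro k k' hk hk' hne
    apply window hS hF hs hL hk
    · rw [hc1 k' (by omega)]; exact one_ne_zero
    · intro he
      have h1 : g k' = g k := Nat.eq_of_mul_eq_mul_left hs2 he
      have h2 := hF.sq k (by omega)
      have h3 := hF.sq k' (by omega)
      rw [h1, h2] at h3
      have h4 : u k = u k' := Nat.pow_left_injective (n := 2) two_ne_zero h3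
      rcases lt_or_gt_of_ne hne with h5 | h5
      · exact absurd h4 (hF.mono k k' (by omega) h5).ne
      · exact absurd h4 (hF.mono k' k (by omega) h5).ne'
  -- the pairs
  set Q := Ioc (4 * q) (8 * q) ×ˢ Ico L h with hQ
  set n1 : ℕ × ℕ → ℕ := fun p => s ^ 2 * g p.1 - h + p.2 with hn1
  set n2 : ℕ × ℕ → ℕ := fun p => s ^ 2 * g p.1 + p.2 with hn2
  have hmemQ : ∀ p : ℕ × ℕ, p ∈ Q ↔ (4 * q < p.1 ∧ p.1 ≤ 8 * q) ∧ (L ≤ p.2 ∧ p.2 < h) := by
    intro p
    rw [hQ, mem_product, mem_Ioc, mem_Ico]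
  have hinj1 : Set.InjOn n1 (Q : Set (ℕ × ℕ)) := by
    intro p hp p' hp' he
    rw [mem_coe, hmemQ] at hp hp'
    simp only [hn1] at he
    have g1 := hgk p.1 hp.1.1
    have g2 := hgk p'.1 hp'.1.1
    by_cases hk : p.1 = p'.1
    · rw [hk] at he
      ext
      · exact hk
      · omega
    · have := hiso p.1 p'.1 hp.1.1 hp'.1.1 hk
      omega
  have hinj2 : Set.InjOn n2 (Q : Set (ℕ × ℕ)) := by
    intro p hp p' hp' he
    rw [mem_coe, hmemQ] at hp hp'
    simp only [hn2] at he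
    by_cases hk : p.1 = p'.1
    · rw [hk] at he
      ext
      · exact hk
      · omega
    · have := hiso p.1 p'.1 hp.1.1 hp'.1.1 hk
      omega
  -- the bad integers
  set Bd := (sup F2 X ×ˢ range (L + 1)).image (fun y => y.1 + y.2) with hBd
  have hBdcard : Bd.card ≤ 113 * (s * q) * (L + 1) := by
    refine card_image_le.trans ?_
    rw [card_product, card_range]
    exact Nat.mul_le_mul_right _ (card_sup2 hS hF hs hq hX2)
  have hBdspec : ∀ n, n ≤ X → n ∉ Bd → ∀ y, y ≤ n → n ≤ y + L → coeff y F2 = 0 := by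
    intro n hn hnB y hy1 hy2
    by_contra hz
    apply hnB
    rw [hBd, mem_image]
    refine ⟨(y, n - y), ?_, by simp only; omega⟩
    rw [mem_product, mem_range]
    exact ⟨mem_sup.2 ⟨by simp only; omega, hz⟩, by simp only; omega⟩
  set G := Q.filter (fun p => n1 p ∉ Bd ∧ n2 p ∉ Bd) with hG
  have hQcard : Q.card = 4 * q * (h - L) := by
    rw [hQ, card_product, Nat.card_Ioc, Nat.card_Ico]
    congr 1
    omega
  have hbad1 : (Q.filter (fun p => n1 p ∈ Bd)).card ≤ Bd.card := by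
    apply Finset.card_le_card_of_injOn n1
    · intro p hp
      rw [mem_coe, mem_filter] at hp
      exact hp.2
    · exact hinj1.mono (by intro p hp; rw [mem_coe, mem_filter] at hp; exact hp.1)
  have hbad2 : (Q.filter (fun p => n2 p ∈ Bd)).card ≤ Bd.card := by
    apply Finset.card_le_card_of_injOn n2
    · intro p hp
      rw [mem_coe, mem_filter] at hp
      exact hp.2
    · exact hinj2.mono (by intro p hp; rw [mem_coe, mem_filter] at hp; exact hp.1)
  have hsplit : Q.card ≤ G.card + (Bd.card + Bd.card) := by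
    have hsub : Q ⊆ G ∪ (Q.filter (fun p => n1 p ∈ Bd) ∪ Q.filter (fun p => n2 p ∈ Bd)) := by
      intro p hp
      rw [mem_union, mem_union, hG, mem_filter, mem_filter, mem_filter]
      by_cases h1 : n1 p ∈ Bd
      · exact Or.inr (Or.inl ⟨hp, h1⟩)
      · by_cases h2 : n2 p ∈ Bd
        · exact Or.inr (Or.inr ⟨hp, h2⟩)
        · exact Or.inl ⟨hp, h1, h2⟩
    refine (card_le_card hsub).trans ((card_union_le _ _).trans ?_)
    exact Nat.add_le_add_left ((card_union_le _ _).trans (Nat.add_le_add hbad1 hbad2)) _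
  -- the map
  have hex : ∀ p ∈ G, ∃ t : (ℕ × ℕ) × Bool, t ∈ (S ×ˢ sup F1 X) ×ˢ (univ : Finset Bool) ∧
      (if t.2 then n1 p else n2 p) = t.1.1 + L + t.1.2 := by
    intro p hp
    rw [hG, mem_filter, hmemQ] at hp
    obtain ⟨⟨⟨hk1, hk2⟩, hr1, hr2⟩, hb1, hb2⟩ := hp
    have e1 := hgk p.1 hk1
    have e2 := hgX p.1 hk1 hk2
    have hn1X : n1 p ≤ X := by simp only [hn1]; omega
    have hn2X : n2 p ≤ X := by simp only [hn2]; omega
    rcases parity (I := I) hS hF hc1 hs hL hk1 hr2 e1 (hBdspec _ hn1X hb1)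
      (hBdspec _ hn2X hb2) with ⟨b, hb, hbF, hB⟩ | ⟨b, hb, hbF, hB⟩
    · have hw := window hS hF hs hL hk1 hbF (by omega)
      have hbL : b + L ≤ n1 p := by simp only [hn1]; omega
      have hbL' : b + L ≤ s ^ 2 * g p.1 - s ^ 2 * q + p.2 := hbL
      rw [coeff_pattern' f hI (by omega)] at hB
      refine ⟨((s ^ 2 * g p.1 - s ^ 2 * q + p.2 - b - L, b), true), ?_, ?_⟩
      · rw [mem_product, mem_product]
        refine ⟨⟨?_, mem_sup.2 ⟨by simp only; omega, hbF⟩⟩, mem_univ _⟩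
        rw [hSdef, mem_filter, mem_range]
        exact ⟨by simp only; omega, hB⟩
      · simp only [hn1, if_true]
        omega
    · have hbL : b + L ≤ s ^ 2 * g p.1 + p.2 := by
        by_cases hbe : b = s ^ 2 * g p.1
        · omega
        · have hw := window hS hF hs hL hk1 hbF hbe
          omega
      rw [coeff_pattern' f hI (by omega)] at hB
      refine ⟨((s ^ 2 * g p.1 + p.2 - b - L, b), false), ?_, ?_⟩
      · rw [mem_product, mem_product]
        refine ⟨⟨?_, mem_sup.2 ⟨by simp only; omega, hbF⟩⟩, mem_univ _⟩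
        rw [hSdef, mem_filter, mem_range]
        exact ⟨by simp only; omega, hB⟩
      · simp only [hn2]
        rw [if_neg (by simp)]
        omega
  choose! t ht1 ht2 using hex
  have hGcard : G.card ≤ ((S ×ˢ sup F1 X) ×ˢ (univ : Finset Bool)).card := by
    apply Finset.card_le_card_of_injOn t
    · intro p hp
      exact ht1 p hp
    · intro p hp p' hp' he
      have a1 := ht2 p hp
      have a2 := ht2 p' hp'
      rw [he] at a1
      rw [← a2] at a1
      have hpQ : p ∈ (Q : Set (ℕ × ℕ)) := by rw [mem_coe, hG, mem_filter] at hp; exact hp.1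
      have hpQ' : p' ∈ (Q : Set (ℕ × ℕ)) := by rw [mem_coe, hG, mem_filter] at hp'; exact hp'.1
      by_cases hb : (t p').2 = true
      · rw [if_pos hb, if_pos hb] at a1
        exact hinj1 hpQ hpQ' a1
      · rw [if_neg hb, if_neg hb] at a1
        exact hinj2 hpQ hpQ' a1
  rw [card_product, card_product, Finset.card_univ, Fintype.card_bool] at hGcard
  have hF1card := card_sup1 hS hF hs hq hX2
  -- the final count
  have b1 : S.card * (sup F1 X).card * 2 ≤ S.card * (113 * q) * 2 :=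
    Nat.mul_le_mul_right _ (Nat.mul_le_mul_left _ hF1card)
  have b2 : 2 * Bd.card ≤ s * q * (s * q) := by
    calc 2 * Bd.card ≤ 2 * (113 * (s * q) * (L + 1)) := Nat.mul_le_mul_left _ hBdcard
      _ = s * q * (226 * (L + 1)) := by ring
      _ ≤ s * q * (s * q) := Nat.mul_le_mul_left _ hL
  have b3 : h ≤ 2 * (h - L) := by omega
  have b4 : 2 * q * h ≤ Q.card := by
    rw [hQcard]
    calc 2 * q * h ≤ 2 * q * (2 * (h - L)) := Nat.mul_le_mul_left _ b3
      _ = 4 * q * (h - L) := by ring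
  have b5 : s * q * (s * q) = q * h := by rw [hh]; ring
  have b6 : q * h ≤ G.card := by
    have : 2 * q * h = q * h + q * h := by ring
    omega
  have b7 : q * h ≤ q * (226 * S.card) := by
    have : q * (226 * S.card) = S.card * (113 * q) * 2 := by ring
    omega
  exact Nat.le_of_mul_le_mul_left b7 hq

end Pool.Agent.Y927.PT
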