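import Pool.Agent.Y927.PT.C
import Pool.Agent.H397R2.PP.TH
import Pool.Agent.H413R3.Part.Pt

/-! Linear patterns modulo 2: the systems for the partition function and for multipartitions. -/

set_option autoImplicit false

namespace Pool.Agent.Y927.PT

open PowerSeries Finset Pool.Agent.H397R2.PP Pool.Agent.H413R3.Part

/-- pentagonal numbers -/
theorem fam24 : Fam 24 (fun k => 6 * k - 1) (fun k => pentagonal (k : ℤ)) := by
  have key : ∀ k : ℕ, 1 ≤ k → 24 * pentagonal (k : ℤ) + 1 = (6 * k - 1) ^ 2 := by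
    intro k hk
    have h1 := TH.pent_sq (k : ℤ)
    have h2 : ((6 * k - 1 : ℕ) : ℤ) = 6 * (k : ℤ) - 1 := by omega
    rw [← h2] at h1
    exact_mod_cast h1
  refine ⟨by norm_num, le_rfl, by norm_num, key, ?_, ?_, ?_, ?_⟩
  · intro k hk; omega
  · intro j k hj hk; omega
  · intro k hk; omega
  · intro k hk
    have h1 := key k hk
    have h2 : (6 * k - 1) ^ 2 ≤ (6 * k) ^ 2 := Nat.pow_le_pow_left (by omega) 2
    nlinarith

/-- triangular numbers -/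
theorem two_tri (k : ℕ) : 2 * (k * (k + 1) / 2) = k * (k + 1) :=
  Nat.mul_div_cancel' (Nat.even_mul_succ_self k).two_dvd

theorem fam8 : Fam 8 (fun k => 2 * k + 1) (fun k => k * (k + 1) / 2) := by
  refine ⟨le_rfl, by norm_num, by norm_num, ?_, ?_, ?_, ?_, ?_⟩
  · intro k hk
    have h1 := two_tri k
    nlinarith
  · intro k hk; omega
  · intro j k hj hk; omega
  · intro k hk; omega
  · intro k hk
    have h1 := two_tri k
    nlinarith

/-- generating function of the partition function modulo 2 -/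
noncomputable def PP : (ZMod 2)⟦X⟧ := PowerSeries.mk fun n => (Fintype.card (Nat.Partition n) : ZMod 2)

theorem PP_mul : PP * pentagonalSeries (ZMod 2) = 1 := mk_card_mul_pentagonalSeries (ZMod 2)

theorem mk_mp (t : ℕ) : (PowerSeries.mk fun n => (mp t n : ZMod 2)) = PP ^ t := by
  ext n
  rw [coeff_mk, ← coeff_pow_eq]
  rfl

theorem pent_ne {b : ℕ} (h : coeff b (pentagonalSeries (ZMod 2)) ≠ 0) :
    ∃ v : ℕ, 24 * b + 1 = v ^ 2 := by
  classical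
  rw [TH.pent_eq, TH.coeff_ind] at h
  have hb : TH.isPent b := by
    by_contra hn
    rw [if_neg hn] at h
    exact h rfl
  obtain ⟨j, rfl⟩ := hb
  refine ⟨(6 * j - 1).natAbs, ?_⟩
  have h1 := TH.pent_sq j
  zify
  rw [sq_abs, h1]

theorem pent_one (k : ℕ) : coeff (pentagonal (k : ℤ)) (pentagonalSeries (ZMod 2)) = 1 := by
  classical
  rw [TH.pent_eq, TH.coeff_ind, if_pos ⟨_, rfl⟩]

theorem tri_ne {b : ℕ} (h : coeff b (TH.ind TH.isTri) ≠ 0) : ∃ v : ℕ, 8 * b + 1 = v ^ 2 := by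
  classical
  rw [TH.coeff_ind] at h
  have hb : TH.isTri b := by
    by_contra hn
    rw [if_neg hn] at h
    exact h rfl
  obtain ⟨i, hi⟩ := hb
  exact ⟨2 * i + 1, by nlinarith⟩

theorem tri_one (k : ℕ) : coeff (k * (k + 1) / 2) (TH.ind TH.isTri) = 1 := by
  classical
  rw [TH.coeff_ind, if_pos ⟨k, two_tri k⟩]

theorem sys_one : Sys 24 1 (fun n => (Fintype.card (Nat.Partition n) : ZMod 2))
    (pentagonalSeries (ZMod 2)) 1 := by
  refine ⟨PP_mul, ?_, ?_⟩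
  · intro b hb
    obtain ⟨v, hv⟩ := pent_ne hb
    exact ⟨v, by rw [one_pow, one_mul]; exact hv⟩
  · intro y hy
    rw [coeff_one] at hy
    have : y = 0 := by
      by_contra hn
      rw [if_neg hn] at hy
      exact hy rfl
    exact ⟨1, by rw [this]; norm_num⟩

theorem pow_eq_exp (j : ℕ) (F : (ZMod 2)⟦X⟧) :
    F ^ ((2 ^ j) ^ 2) = PowerSeries.expand ((2 ^ j) ^ 2) (by positivity) F :=
  pow_eq_expand' _ (2 * j) (by positivity) (by rw [← pow_mul, mul_comm]) F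

theorem exp_ne {M b : ℕ} (hM : M ≠ 0) {F : (ZMod 2)⟦X⟧}
    (h : coeff b (PowerSeries.expand M hM F) ≠ 0) : ∃ y, b = M * y ∧ coeff y F ≠ 0 := by
  rw [coeff_expand] at h
  by_cases hd : M ∣ b
  · rw [if_pos hd] at h
    exact ⟨b / M, (Nat.mul_div_cancel' hd).symm, h⟩
  · rw [if_neg hd] at h
    exact absurd rfl h

theorem exp_coeff {M y : ℕ} (hM : M ≠ 0) (F : (ZMod 2)⟦X⟧) :
    coeff (M * y) (PowerSeries.expand M hM F) = coeff y F := by
  rw [coeff_expand, if_pos (Dvd.intro _ rfl), Nat.mul_div_cancel_left _ (Nat.pos_of_ne_zero hM)]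

theorem aux1 (M : ℕ) (h : 1 ≤ M) :
    PP ^ (M - 1) * pentagonalSeries (ZMod 2) ^ M = pentagonalSeries (ZMod 2) := by
  obtain ⟨m, rfl⟩ : ∃ m, M = m + 1 := ⟨M - 1, by omega⟩
  rw [Nat.add_sub_cancel, pow_succ, ← mul_assoc, ← mul_pow, PP_mul, one_pow, one_mul]

theorem aux3 (M : ℕ) (h : 1 ≤ M) :
    PP ^ (3 * (M - 1)) * (pentagonalSeries (ZMod 2) ^ 3) ^ M = pentagonalSeries (ZMod 2) ^ 3 := by
  obtain ⟨m, rfl⟩ : ∃ m, M = m + 1 := ⟨M - 1, by omega⟩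
  rw [Nat.add_sub_cancel, pow_succ, ← mul_assoc, pow_mul, ← mul_pow, ← mul_pow, PP_mul, one_pow,
    one_pow, one_mul]

theorem sys_pent (j : ℕ) : Sys 24 (2 ^ j) (fun n => (mp (4 ^ j - 1) n : ZMod 2))
    (pentagonalSeries (ZMod 2) ^ ((2 ^ j) ^ 2)) (pentagonalSeries (ZMod 2)) := by
  have h4 : (4 : ℕ) ^ j = (2 ^ j) ^ 2 := by rw [← pow_mul, mul_comm, pow_mul]; norm_num
  have h1 : 1 ≤ (2 ^ j) ^ 2 := Nat.one_le_pow _ _ (by positivity)
  refine ⟨?_, ?_, ?_⟩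
  · rw [mk_mp, h4]
    exact aux1 _ h1
  · intro b hb
    rw [pow_eq_exp] at hb
    obtain ⟨y, rfl, hy⟩ := exp_ne _ hb
    obtain ⟨v, hv⟩ := pent_ne hy
    exact ⟨v, by rw [← hv]; ring⟩
  · intro y hy
    exact pent_ne hy

theorem sys_pent_c1 (j k : ℕ) :
    coeff ((2 ^ j) ^ 2 * pentagonal (k : ℤ)) (pentagonalSeries (ZMod 2) ^ ((2 ^ j) ^ 2)) = 1 := by
  rw [pow_eq_exp, exp_coeff, pent_one]

theorem sys_tri (j : ℕ) : Sys 8 (2 ^ j) (fun n => (mp (3 * (4 ^ j - 1)) n : ZMod 2))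
    (TH.ind TH.isTri ^ ((2 ^ j) ^ 2)) (TH.ind TH.isTri) := by
  have h4 : (4 : ℕ) ^ j = (2 ^ j) ^ 2 := by rw [← pow_mul, mul_comm, pow_mul]; norm_num
  have h1 : 1 ≤ (2 ^ j) ^ 2 := Nat.one_le_pow _ _ (by positivity)
  refine ⟨?_, ?_, ?_⟩
  · rw [mk_mp, h4, TH.psi_eq, ← TH.pent_eq]
    exact aux3 _ h1
  · intro b hb
    rw [pow_eq_exp] at hb
    obtain ⟨y, rfl, hy⟩ := exp_ne _ hb
    obtain ⟨v, hv⟩ := tri_ne hy
    exact ⟨v, by rw [← hv]; ring⟩
  · intro y hy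
    exact tri_ne hy

theorem sys_tri_c1 (j k : ℕ) :
    coeff ((2 ^ j) ^ 2 * (k * (k + 1) / 2)) (TH.ind TH.isTri ^ ((2 ^ j) ^ 2)) = 1 := by
  rw [pow_eq_exp, exp_coeff, tri_one]

end Pool.Agent.Y927.PT
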