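import Pool.Agent.Y927.PT.D
import Pool.Agent.H510R2.Div

/-! Linear patterns modulo 2: the bounds with real numbers. -/

set_option autoImplicit false

namespace Pool.Agent.Y927.PT

open PowerSeries Finset

theorem odd_real (ε : ℝ) (hε : 0 < ε) : ∃ c : ℝ, 0 < c ∧ ∀ κ s L X N : ℕ, κ ≤ 24 → 1 ≤ s →
    10 ^ 9 ≤ X → (s : ℝ) ^ 2 ≤ Real.sqrt X / 100 → (L : ℝ) ≤ Real.sqrt X / 11000 →
    (∀ D k0 k1 : ℕ, (∀ m, s ^ 2 < κ * m + 1 → m ≤ X → (κ * m + 1 - s ^ 2).divisors.card ≤ D) →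
      1 ≤ k0 → κ * L ≤ 2 * k0 → s ^ 2 ≤ 2 * k0 + 1 → 2 * k1 ^ 2 ≤ X → k1 + 1 - k0 ≤ D * N) →
    c * (X : ℝ) ^ (1 / 2 - ε) ≤ N := by
  obtain ⟨C, hC, hdiv⟩ := Pool.Agent.H510R2.divisor_bound ε hε
  refine ⟨1 / (2 * C * 25 ^ ε), by positivity, fun κ s L X N hκ hs hX hsX hLX h => ?_⟩
  have hX0 : (0 : ℝ) < X := by
    have : 0 < X := by omega
    exact_mod_cast this
  have hXr : (10 : ℝ) ^ 9 ≤ X := by exact_mod_cast hX
  set R : ℝ := Real.sqrt X with hR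
  have hR0 : 0 < R := Real.sqrt_pos.2 hX0
  have hRR : R ^ 2 = X := Real.sq_sqrt hX0.le
  set k1 := Nat.sqrt (X / 2) with hk1
  have h1 : 2 * k1 ^ 2 ≤ X := by
    have h2 : k1 ^ 2 ≤ X / 2 := Nat.sqrt_le' _
    omega
  have h2 : X < 2 * (k1 + 1) ^ 2 := by
    have h3 : X / 2 < (k1 + 1) ^ 2 := Nat.lt_succ_sqrt' _
    omega
  have h3 : 7 / 10 * R ≤ k1 + 1 := by
    have h4 : (X : ℝ) < 2 * ((k1 : ℝ) + 1) ^ 2 := by exact_mod_cast h2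
    rw [← hRR] at h4
    by_contra hcon
    push Not at hcon
    have h5 : (0 : ℝ) ≤ (k1 : ℝ) + 1 := by positivity
    nlinarith
  have h4 := h ⌊C * (25 * (X : ℝ)) ^ ε⌋₊ (12 * L + s ^ 2) k1 (by
    intro m hm hmX
    apply Nat.le_floor
    have e1 : 1 ≤ κ * m + 1 - s ^ 2 := by omega
    refine (hdiv _ e1).trans ?_
    apply mul_le_mul_of_nonneg_left _ hC.le
    apply Real.rpow_le_rpow (by positivity) _ hε.le
    have e2 : κ * m ≤ 24 * X := Nat.mul_le_mul hκ hmX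
    have e3 : κ * m + 1 - s ^ 2 ≤ 25 * X := by
      have : 1 ≤ s ^ 2 := Nat.one_le_pow _ _ hs
      omega
    exact_mod_cast e3) (by
      have : 1 ≤ s ^ 2 := Nat.one_le_pow _ _ hs
      omega) (by
      have : κ * L ≤ 24 * L := Nat.mul_le_mul_right _ hκ
      omega) (by omega) h1
  have h5 : (k1 : ℝ) + 1 - (12 * L + s ^ 2) ≤ C * (25 * (X : ℝ)) ^ ε * N := by
    have e1 : k1 + 1 ≤ ⌊C * (25 * (X : ℝ)) ^ ε⌋₊ * N + (12 * L + s ^ 2) := by omega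
    have e2 : (k1 : ℝ) + 1 ≤ (⌊C * (25 * (X : ℝ)) ^ ε⌋₊ : ℝ) * N + (12 * L + s ^ 2) := by
      exact_mod_cast e1
    have e3 : (⌊C * (25 * (X : ℝ)) ^ ε⌋₊ : ℝ) ≤ C * (25 * (X : ℝ)) ^ ε := Nat.floor_le (by positivity)
    have e4 : (⌊C * (25 * (X : ℝ)) ^ ε⌋₊ : ℝ) * N ≤ C * (25 * (X : ℝ)) ^ ε * N :=
      mul_le_mul_of_nonneg_right e3 (by positivity)
    linarith
  have h6 : R / 2 ≤ C * (25 * (X : ℝ)) ^ ε * N := by
    refine le_trans ?_ h5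
    linarith
  have h7 : (25 * (X : ℝ)) ^ ε = 25 ^ ε * (X : ℝ) ^ ε := Real.mul_rpow (by norm_num) hX0.le
  have h8 : R = (X : ℝ) ^ (1 / 2 : ℝ) := by rw [hR, Real.sqrt_eq_rpow]
  have h9 : (X : ℝ) ^ (1 / 2 - ε) = R / (X : ℝ) ^ ε := by rw [Real.rpow_sub hX0, h8]
  rw [h9]
  rw [h7] at h6
  have h10 : 0 < (X : ℝ) ^ ε := by positivity
  have h11 : (0 : ℝ) < 25 ^ ε := by positivity
  rw [div_mul_div_comm, one_mul, div_le_iff₀ (by positivity)]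
  nlinarith

variable {κ s L X : ℕ} {f : ℕ → ZMod 2} {F1 F2 : (ZMod 2)⟦X⟧} {u g : ℕ → ℕ} {I : Finset ℕ}

theorem even_real (hS : Sys κ s f F1 F2) (hF : Fam κ u g)
    (hc1 : ∀ k, 1 ≤ k → coeff (s ^ 2 * g k) F1 = 1)
    (hs : 1 ≤ s) (hI : ∀ i ∈ I, i ≤ L) (hX : 10 ^ 9 ≤ X)
    (hsX : (s : ℝ) ^ 2 ≤ Real.sqrt X / 100) (hLX : (L : ℝ) ≤ Real.sqrt X / 11000) :
    s * Real.sqrt X / 5200 ≤ ((range (X + 1)).filter (fun n => ps f I n = 0)).card := by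
  have hX0 : (0 : ℝ) < X := by
    have : 0 < X := by omega
    exact_mod_cast this
  have hXr : (10 : ℝ) ^ 9 ≤ X := by exact_mod_cast hX
  have hs2 : 1 ≤ s ^ 2 := Nat.one_le_pow _ _ hs
  have hsr : (1 : ℝ) ≤ s := by exact_mod_cast hs
  set R : ℝ := Real.sqrt X with hR
  have hR0 : 0 < R := Real.sqrt_pos.2 hX0
  have hRR : R ^ 2 = X := Real.sq_sqrt hX0.le
  have hR3 : 30000 ≤ R := by
    by_contra hcon
    push Not at hcon
    nlinarith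
  set q := Nat.sqrt (X / (129 * s ^ 2)) with hq
  have hpos : 0 < 129 * s ^ 2 := by omega
  have h1 : 129 * s ^ 2 * q ^ 2 ≤ X := by
    have h2 : q ^ 2 ≤ X / (129 * s ^ 2) := Nat.sqrt_le' _
    have h3 := (Nat.le_div_iff_mul_le hpos).1 h2
    linarith
  have h2 : X < 129 * s ^ 2 * (q + 1) ^ 2 := by
    have h3 : X / (129 * s ^ 2) < (q + 1) ^ 2 := Nat.lt_succ_sqrt' _
    have h4 := (Nat.div_lt_iff_lt_mul hpos).1 h3
    linarith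
  have hq1 : 1 ≤ q := by
    by_contra hcon
    have hq0 : q = 0 := by omega
    rw [hq0] at h2
    have h3 : X < 129 * s ^ 2 := by linarith
    have h4 : (X : ℝ) < 129 * (s : ℝ) ^ 2 := by exact_mod_cast h3
    rw [← hRR] at h4
    nlinarith
  have h3 : X < 516 * s ^ 2 * q ^ 2 := by
    have h4 : (q + 1) ^ 2 ≤ 4 * q ^ 2 := by nlinarith
    calc X < 129 * s ^ 2 * (q + 1) ^ 2 := h2
      _ ≤ 129 * s ^ 2 * (4 * q ^ 2) := Nat.mul_le_mul_left _ h4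
      _ = 516 * s ^ 2 * q ^ 2 := by ring
  have h4 : R ≤ 23 * ((s : ℝ) * q) := by
    have h5 : (X : ℝ) < 516 * (s : ℝ) ^ 2 * (q : ℝ) ^ 2 := by exact_mod_cast h3
    rw [← hRR] at h5
    by_contra hcon
    push Not at hcon
    have h6 : (0 : ℝ) ≤ (s : ℝ) * q := by positivity
    nlinarith
  have h5 : 226 * (L + 1) ≤ s * q := by
    have h6 : 226 * ((L : ℝ) + 1) ≤ (s : ℝ) * q := by linarith
    exact_mod_cast h6
  have h6 := even_gen hS hF hc1 hs hI hq1 h1 h3 h5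
  have h7 : (s : ℝ) ^ 2 * q ≤ 226 * (((range (X + 1)).filter (fun n => ps f I n = 0)).card : ℝ) := by
    exact_mod_cast h6
  have h8 : (s : ℝ) * R ≤ 23 * ((s : ℝ) ^ 2 * q) := by nlinarith
  rw [div_le_iff₀ (by norm_num)]
  nlinarith

end Pool.Agent.Y927.PT
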